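import Pool.Agent.U722.FF.Stm4

/-!
# Project LB, package MPROD: direct sums of matrix resolutions
-/

set_option autoImplicit false

namespace Pool.Agent.U697.LBP

open Matrix U722.FF

theorem key {S : Type} [Ring S] {l m l' m' : Type} [Fintype l] [Fintype l'] (A : Matrix l m S) (D : Matrix l' m' S)
    (x : l ⊕ l' → S) (v : m ⊕ m' → S) :
    x ᵥ* fromBlocks A 0 0 D = v ↔ (x ∘ Sum.inl) ᵥ* A = v ∘ Sum.inl ∧ (x ∘ Sum.inr) ᵥ* D = v ∘ Sum.inr := by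
  rw [vecMul_fromBlocks, vecMul_zero, vecMul_zero, add_zero, zero_add]
  constructor
  · intro h
    rw [← h]
    exact ⟨rfl, rfl⟩
  · rintro ⟨h1, h2⟩
    rw [h1, h2]
    funext i
    cases i <;> rfl

theorem key0 {S : Type} [Ring S] {l m l' m' : Type} [Fintype l] [Fintype l'] (A : Matrix l m S) (D : Matrix l' m' S)
    (x : l ⊕ l' → S) :
    x ᵥ* fromBlocks A 0 0 D = 0 ↔ (x ∘ Sum.inl) ᵥ* A = 0 ∧ (x ∘ Sum.inr) ᵥ* D = 0 :=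
  key A D x 0

/-- exactness of the direct sum -/
theorem ex {S : Type} [Ring S] {l m l' m' : Type} [Fintype l] [Fintype l'] (A : Matrix l m S) (D : Matrix l' m' S)
    (v : m ⊕ m' → S) (h1 : ∃ w : l → S, w ᵥ* A = v ∘ Sum.inl) (h2 : ∃ w : l' → S, w ᵥ* D = v ∘ Sum.inr) :
    ∃ w : l ⊕ l' → S, w ᵥ* fromBlocks A 0 0 D = v := by
  obtain ⟨w1, hw1⟩ := h1
  obtain ⟨w2, hw2⟩ := h2
  exact ⟨Sum.elim w1 w2, (key A D _ v).2 ⟨hw1, hw2⟩⟩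

theorem mapb {R S : Type} [Ring R] [Ring S] (ψ : R →+* S) {l m l' m' : Type} (A : Matrix l m R)
    (D : Matrix l' m' R) : (fromBlocks A 0 0 D).map ψ = fromBlocks (A.map ψ) 0 0 (D.map ψ) := by
  rw [fromBlocks_map]
  simp

theorem t_MPROD : S_MPROD := by
  intro R U _ _ ψ k A B _ _ _ _ hA hB
  obtain ⟨NA, ιA, fA, dA, εA, a1, a2, a3, a4, a5, a6⟩ := hA
  obtain ⟨NB, ιB, fB, dB, εB, b1, b2, b3, b4, b5, b6⟩ := hB
  refine ⟨max NA NB, fun n => ιA n ⊕ ιB n, fun n => inferInstance, fun n => fromBlocks (dA n) 0 0 (dB n),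
    { toFun := fun v => (εA (v ∘ Sum.inl), εB (v ∘ Sum.inr))
      map_add' := ?_
      map_smul' := ?_ }, ?_, ?_, ?_, ?_, ?_, ?_⟩
  · intro x y
    have e1 : (x + y) ∘ Sum.inl = x ∘ Sum.inl + y ∘ (Sum.inl : ιA 0 → ιA 0 ⊕ ιB 0) := rfl
    have e2 : (x + y) ∘ Sum.inr = x ∘ Sum.inr + y ∘ (Sum.inr : ιB 0 → ιA 0 ⊕ ιB 0) := rfl
    rw [e1, e2, map_add, map_add]
    rfl
  · intro r x
    have e1 : (r • x) ∘ Sum.inl = r • (x ∘ (Sum.inl : ιA 0 → ιA 0 ⊕ ιB 0)) := rfl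
    have e2 : (r • x) ∘ Sum.inr = r • (x ∘ (Sum.inr : ιB 0 → ιA 0 ⊕ ιB 0)) := rfl
    rw [e1, e2, map_smul, map_smul]
    rfl
  · intro n hn
    have := a1 n (lt_of_le_of_lt (le_max_left _ _) hn)
    have := b1 n (lt_of_le_of_lt (le_max_right _ _) hn)
    exact ⟨fun x => x.elim (fun y => isEmptyElim y) (fun y => isEmptyElim y)⟩
  · rintro ⟨x, y⟩
    obtain ⟨v, hv⟩ := a2 x
    obtain ⟨w, hw⟩ := b2 y
    refine ⟨Sum.elim v w, ?_⟩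
    show (εA (Sum.elim v w ∘ Sum.inl), εB (Sum.elim v w ∘ Sum.inr)) = (x, y)
    rw [Sum.elim_comp_inl, Sum.elim_comp_inr, hv, hw]
  · intro v
    show (εA (v ∘ Sum.inl), εB (v ∘ Sum.inr)) = ((0, 0) : A × B) ↔ _
    rw [Prod.mk.injEq]
    constructor
    · rintro ⟨h1, h2⟩
      exact ex _ _ v ((a3 _).1 h1) ((b3 _).1 h2)
    · rintro ⟨w, hw⟩
      obtain ⟨h1, h2⟩ := (key _ _ _ _).1 hw
      exact ⟨(a3 _).2 ⟨_, h1⟩, (b3 _).2 ⟨_, h2⟩⟩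
  · intro n v
    constructor
    · intro h
      obtain ⟨h1, h2⟩ := (key0 _ _ _).1 h
      exact ex _ _ v ((a4 n _).1 h1) ((b4 n _).1 h2)
    · rintro ⟨w, hw⟩
      obtain ⟨h1, h2⟩ := (key _ _ _ _).1 hw
      exact (key0 _ _ _).2 ⟨(a4 n _).2 ⟨_, h1⟩, (b4 n _).2 ⟨_, h2⟩⟩
  · intro hk v
    rw [mapb]
    exact ex _ _ v (a5 hk _) (b5 hk _)
  · intro n hn v hv
    rw [mapb] at hv ⊢
    obtain ⟨h1, h2⟩ := (key0 _ _ _).1 hv
    exact ex _ _ v (a6 n hn _ h1) (b6 n hn _ h2)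

end Pool.Agent.U697.LBP
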